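import Pool.Agent.helper59.FI4.SpecI

/-!
# Project FI4 (MP_baa4d7_al), block IND, row LBC (helper44)
-/

set_option autoImplicit false

namespace Pool.Agent.FI4I

open Pool.Agent.helper58.DC Pool.Agent.DI Pool.Agent.GR Pool.Agent.OB Pool.Agent.DR Pool.Agent.FI Pool.Agent.FI3 Pool.Agent.FI4

theorem LBC_inf {G : Type} [Group G] (n : G) (N X : Subgroup G) : cjS n (N ⊓ X) = cjS n N ⊓ cjS n X := by
  ext x
  rw [Subgroup.mem_inf, mem_cjS, mem_cjS, mem_cjS, Subgroup.mem_inf]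

theorem LBC (hBKN : BKN_stmt) (hBKV : BKV_stmt) (hBKC : BKC_stmt) (hLBI : LBI_stmt) (hDCT : DCT_stmt) (hFEQ : FEQ_stmt) (hCJG : CJG_stmt) : LBC_stmt := by
  classical
  intro p M hM G _ _ D x θ χ hR Q N hMid hRed φ hφ
  obtain ⟨g₀, hQ₀, θ₀, hθ₀, hS₀, -⟩ := hBKN p M hM G D x θ χ hR Q N hMid φ hφ
  have hcN : ∀ n ∈ N, cjS n N = N := fun n hn => ((hCJG G M p n N).2.2.2.2.2.1 hn φ).2
  have hred := hRed φ hφ g₀ hQ₀ θ₀ hθ₀ hS₀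
  have hdct := hDCT G D N g₀
  set A : Set G := {g : G | ∃ n ∈ N, cjS n (cjS g₀ D) = cjS g D} with hA
  let F : G → ℂ := fun g => (Nat.card (N ⊓ nz (cjS g D) : Subgroup G) : ℂ) * LB p M N φ (N ⊓ nz (cjS g D))
  have hAF : ∀ g ∈ A, Q ≤ cjS g D ∧ F g = F g₀ := by
    rintro g ⟨n, hn, hng⟩
    have hQn : cjS n Q = Q := ((hFEQ G M n n Q Q Q φ φ φ).2.1.2.2.2.1).2 (hMid.nle hn)
    have h1 : Q ≤ cjS g D := by
      rw [← hQn, ← hng]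
      exact ((hFEQ G M n n Q (cjS g₀ D) Q φ φ φ).2.1.2.2.1).2 hQ₀
    have h2 : N ⊓ nz (cjS g D) = cjS n (N ⊓ nz (cjS g₀ D)) := by
      rw [LBC_inf, hcN n hn, ← (hFEQ G M n n (cjS g₀ D) Q Q φ φ φ).2.1.2.1, hng]
    refine ⟨h1, ?_⟩
    show (Nat.card (N ⊓ nz (cjS g D) : Subgroup G) : ℂ) * LB p M N φ (N ⊓ nz (cjS g D)) =
      (Nat.card (N ⊓ nz (cjS g₀ D) : Subgroup G) : ℂ) * LB p M N φ (N ⊓ nz (cjS g₀ D))
    rw [h2, (hLBI p M hM G).1 N φ n hn, (hFEQ G M n n (N ⊓ nz (cjS g₀ D)) Q Q φ φ φ).2.1.2.2.2.2.2]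
  have hF0 : ∀ g : G, Q ≤ cjS g D → g ∉ A → F g = 0 := by
    intro g hQg hgA
    show (Nat.card (N ⊓ nz (cjS g D) : Subgroup G) : ℂ) * LB p M N φ (N ⊓ nz (cjS g D)) = 0
    have h1 : LB p M N φ (N ⊓ nz (cjS g D)) = 0 := by
      have hemp : {ζ : G → ℂ | ζ ∈ IrrOn (N ⊓ nz (cjS g D)) ∧ SB M N ζ φ} = ∅ := by
        rw [Set.eq_empty_iff_forall_notMem]
        rintro ζ ⟨hζ, hζφ⟩
        obtain ⟨-, -, -, hz⟩ := hBKV p M hM G D x θ χ hR Q N hMid g hQg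
        obtain ⟨θ₁, h1, -, h3⟩ := hz ζ hζ
        exact hgA (hBKC p M hM G D x θ χ hR Q N hMid φ hφ g₀ g hQ₀ hQg θ₀ hθ₀ hS₀ θ₁ h1 (h3.trans hζφ))
      unfold LB
      rw [hemp, finsum_mem_empty]
    rw [h1, mul_zero]
  have hBf : {g : G | Q ≤ cjS g D}.Finite := Set.toFinite _
  have hAfin : A.Finite := Set.toFinite _
  have hsum : ∑ᶠ g ∈ {g : G | Q ≤ cjS g D}, F g = (A.ncard : ℂ) * F g₀ := by
    rw [finsum_mem_eq_finite_toFinset_sum _ hBf, Set.ncard_eq_toFinset_card A hAfin]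
    have h1 : hAfin.toFinset ⊆ hBf.toFinset := by
      intro g hg
      rw [Set.Finite.mem_toFinset] at hg ⊢
      exact (hAF g hg).1
    rw [← Finset.sum_subset h1 (by
      intro g hg hg'
      rw [Set.Finite.mem_toFinset] at hg hg'
      exact hF0 g hg hg')]
    rw [Finset.sum_congr rfl fun g hg => (hAF g (hAfin.mem_toFinset.1 hg)).2, Finset.sum_const, nsmul_eq_mul]
  rw [hsum]
  show _ = (A.ncard : ℂ) * ((Nat.card (N ⊓ nz (cjS g₀ D) : Subgroup G) : ℂ) * LB p M N φ (N ⊓ nz (cjS g₀ D)))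
  rw [← hred, ← mul_assoc (A.ncard : ℂ), ← mul_assoc (Nat.card (nz D) : ℂ)]
  congr 1
  have h2 : (A.ncard : ℂ) * (Nat.card (N ⊓ nz (cjS g₀ D) : Subgroup G) : ℂ) = (Nat.card N : ℂ) * (Nat.card (nz D) : ℂ) := by
    exact_mod_cast hdct
  rw [h2, mul_comm]

end Pool.Agent.FI4I
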