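import Pool.Agent.helper58.FI4.SpecC

/-!
# Project FI4 (MP_baa4d7_al), block CNT, row CBL (helper44)
-/

set_option autoImplicit false

namespace Pool.Agent.FI4C

open Pool.Agent.helper58.DC Pool.Agent.DI Pool.Agent.GR Pool.Agent.OB Pool.Agent.DR Pool.Agent.FI Pool.Agent.FI3 Pool.Agent.FI4

theorem CBL_sum {α β γ : Type} (A : Finset α) (X : Finset β) (R : Finset γ) (f : β → α → ℂ) (g h : α → γ → ℂ) :
    ∑ η ∈ A, ∑ η' ∈ A, (∑ χ ∈ X, f χ η * f χ η') * ∑ v ∈ R, g η v * h η' v =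
      ∑ v ∈ R, ∑ χ ∈ X, (∑ η ∈ A, f χ η * g η v) * ∑ η' ∈ A, f χ η' * h η' v := by
  calc ∑ η ∈ A, ∑ η' ∈ A, (∑ χ ∈ X, f χ η * f χ η') * ∑ v ∈ R, g η v * h η' v
      = ∑ η ∈ A, ∑ η' ∈ A, ∑ χ ∈ X, ∑ v ∈ R, (f χ η * g η v) * (f χ η' * h η' v) := by
        refine Finset.sum_congr rfl fun η _ => Finset.sum_congr rfl fun η' _ => ?_
        rw [Finset.sum_mul_sum]
        refine Finset.sum_congr rfl fun χ _ => Finset.sum_congr rfl fun v _ => ?_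
        ring
    _ = ∑ η ∈ A, ∑ χ ∈ X, ∑ η' ∈ A, ∑ v ∈ R, (f χ η * g η v) * (f χ η' * h η' v) :=
        Finset.sum_congr rfl fun η _ => Finset.sum_comm
    _ = ∑ η ∈ A, ∑ χ ∈ X, ∑ v ∈ R, ∑ η' ∈ A, (f χ η * g η v) * (f χ η' * h η' v) :=
        Finset.sum_congr rfl fun η _ => Finset.sum_congr rfl fun χ _ => Finset.sum_comm
    _ = ∑ χ ∈ X, ∑ η ∈ A, ∑ v ∈ R, ∑ η' ∈ A, (f χ η * g η v) * (f χ η' * h η' v) := Finset.sum_comm
    _ = ∑ χ ∈ X, ∑ v ∈ R, ∑ η ∈ A, ∑ η' ∈ A, (f χ η * g η v) * (f χ η' * h η' v) :=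
        Finset.sum_congr rfl fun χ _ => Finset.sum_comm
    _ = ∑ v ∈ R, ∑ χ ∈ X, ∑ η ∈ A, ∑ η' ∈ A, (f χ η * g η v) * (f χ η' * h η' v) := Finset.sum_comm
    _ = ∑ v ∈ R, ∑ χ ∈ X, (∑ η ∈ A, f χ η * g η v) * ∑ η' ∈ A, f χ η' * h η' v := by
        refine Finset.sum_congr rfl fun v _ => Finset.sum_congr rfl fun χ _ => ?_
        rw [Finset.sum_mul_sum]

theorem CBL_cz {G : Type} [Group G] [Finite G] (m : ℕ) (hm : m.Coprime (Nat.card G)) (y : G) :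
    Cz (⊤ : Subgroup G) (y ^ m) = Cz (⊤ : Subgroup G) y := by
  have hco : m.Coprime (orderOf y) := hm.coprime_dvd_right (orderOf_dvd_natCard y)
  obtain ⟨k, hk⟩ := exists_pow_eq_self_of_coprime hco
  ext g
  unfold Cz
  rw [Subgroup.mem_inf, Subgroup.mem_inf, Subgroup.mem_centralizer_singleton_iff,
    Subgroup.mem_centralizer_singleton_iff]
  constructor
  · rintro ⟨h1, h2⟩
    refine ⟨h1, ?_⟩
    have h3 : Commute (y ^ m) g := by
      first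
        | exact h2
        | exact h2.symm
    have h4 : Commute ((y ^ m) ^ k) g := h3.pow_left k
    rw [hk] at h4
    first
      | exact h4
      | exact h4.symm
  · rintro ⟨h1, h2⟩
    refine ⟨h1, ?_⟩
    have h3 : Commute y g := by
      first
        | exact h2
        | exact h2.symm
    have h4 : Commute (y ^ m) g := h3.pow_left m
    first
      | exact h4
      | exact h4.symm

theorem CBL (hDBV : DBV3_stmt) (hQES : QES_stmt) (hIF : IF_stmt) : CBL_stmt := by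
  classical
  intro p M hM G _ _ m hm y hy S hS hcond
  have hK := CBL_cz m hm y
  set K := Cz (⊤ : Subgroup G) y with hKdef
  have hSf : S.Finite := (hIF G K).1.subset hS.sub
  have hXf : (IrrOn (⊤ : Subgroup G)).Finite := (hIF G ⊤).1
  have hRf : {v : G | v ∈ K ∧ PReg p v}.Finite := Set.toFinite _
  have hyK : y ∈ K := by
    rw [hKdef]
    unfold Cz
    rw [Subgroup.mem_inf, Subgroup.mem_centralizer_singleton_iff]
    exact ⟨Subgroup.mem_top _, rfl⟩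
  have e1 : ∀ η η' : G → ℂ, (∑ᶠ χ' ∈ IrrOn (⊤ : Subgroup G), mt K χ' η * mt K χ' η') =
      ∑ χ' ∈ hXf.toFinset, mt K χ' η * mt K χ' η' := fun η η' => finsum_mem_eq_finite_toFinset_sum _ hXf
  have e2 : ∀ η η' : G → ℂ, (∑ᶠ v ∈ {v : G | v ∈ K ∧ PReg p v}, η (y ^ m * v) * η' (y * v)⁻¹) =
      ∑ v ∈ hRf.toFinset, η (y ^ m * v) * η' (y * v)⁻¹ := fun η η' => finsum_mem_eq_finite_toFinset_sum _ hRf
  simp only [e1, e2]
  rw [finsum_mem_eq_finite_toFinset_sum _ hSf]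
  have e3 : ∀ η : G → ℂ, (∑ᶠ η' ∈ S, (∑ χ' ∈ hXf.toFinset, mt K χ' η * mt K χ' η') *
      ∑ v ∈ hRf.toFinset, η (y ^ m * v) * η' (y * v)⁻¹) =
      ∑ η' ∈ hSf.toFinset, (∑ χ' ∈ hXf.toFinset, mt K χ' η * mt K χ' η') *
      ∑ v ∈ hRf.toFinset, η (y ^ m * v) * η' (y * v)⁻¹ := fun η => finsum_mem_eq_finite_toFinset_sum _ hSf
  rw [Finset.sum_congr rfl fun η _ => e3 η]
  rw [CBL_sum hSf.toFinset hXf.toFinset hRf.toFinset (fun χ' η => mt K χ' η) (fun η v => η (y ^ m * v))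
    (fun η' v => η' (y * v)⁻¹)]
  refine Finset.sum_eq_zero fun v hv => ?_
  have hv' : v ∈ K ∧ PReg p v := hRf.mem_toFinset.1 hv
  have hS' : BC M (Cz (⊤ : Subgroup G) (y ^ m)) S := by rw [hK]; exact hS
  have hvm : v ∈ Cz (⊤ : Subgroup G) (y ^ m) := by rw [hK]; exact hv'.1
  have hym : PEl p (y ^ m) := by
    obtain ⟨k, hk⟩ := hy
    refine ⟨k, ?_⟩
    rw [← pow_mul, mul_comm, pow_mul, hk, one_pow]
  have key := hDBV p M hM G ⊤ (y ^ m) (Subgroup.mem_top _) hym y (Subgroup.mem_top _) hy v hvm v hv'.1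
    hv'.2 hv'.2 S S hS' hS (fun w _ hw ψ hψ => hcond w hw ψ hψ)
  rw [hK, finsum_mem_eq_finite_toFinset_sum _ hXf] at key
  rw [← key]
  refine Finset.sum_congr rfl fun χ' hχ' => ?_
  have hχ : χ' ∈ IrrOn (⊤ : Subgroup G) := hXf.mem_toFinset.1 hχ'
  have q := (hQES G ⊤ χ' hχ).1 K le_top S hS.sub
  rw [q (y ^ m * v) (mul_mem (pow_mem hyK m) hv'.1), q (y * v)⁻¹ (inv_mem (mul_mem hyK hv'.1)),
    finsum_mem_eq_finite_toFinset_sum _ hSf, finsum_mem_eq_finite_toFinset_sum _ hSf]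

end Pool.Agent.FI4C
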